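import Pool.Agent.U918.LP.Core

/-!
# Conjecture F for `x² + x + A`, on average over `A`, with arbitrary weights on the `x`

Let `w` be ANY bounded real weight on the integers `x ≤ X`, for example the indicator of an arbitrary set. For
all but a share `log ^ (-U) X` of the vectors `(A₁, …, A_r)` of integers `1 ≤ A_i ≤ B X²`, the sum of `w x` over the
`x` for which all the numbers `x² + x + A_i` are prime is the sum of `w x ∏ 1 / (V z log (x² + x + A_i))` over the `x`
for which all the numbers `x² + x + A_i` are free of primes `≤ z`, up to an error `X / log ^ D X`; here `z` is a power of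
`log X`, `V z = ∏_{p ≤ z} (1 - 1/p)`, and this holds simultaneously for all initial intervals `x ≤ y`, `y ≤ X`, and all
residue classes of `x` to all moduli up to `log ^ K X`.
-/

set_option autoImplicit false

open Finset

namespace Pool.Agent.Results.MP_8be758_nt.ArbitraryWeights

/-- the product of `1 - 1/p` over the primes `p ≤ z` -/
noncomputable def V (z : ℕ) : ℝ := ∏ p ∈ (Icc 1 z).filter Nat.Prime, (1 - 1 / (p : ℝ))

open Classical in
/-- the sum of `w x` over the `x`, `1 ≤ x ≤ y`, `x ≡ a mod q`, for which all the numbers `x² + x + A i` are prime -/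
noncomputable def primeSum {r : ℕ} (w : ℕ → ℝ) (A : Fin r → ℕ) (q a y : ℕ) : ℝ :=
  ∑ x ∈ (Icc 1 y).filter (fun x => x ≡ a [MOD q] ∧ ∀ i, (x ^ 2 + x + A i).Prime), w x

open Classical in
/-- the sum of `w x / ∏ (V z · log (x² + x + A i))` over the `x`, `1 ≤ x ≤ y`, `x ≡ a mod q`, for which no prime
`p ≤ z` divides any of the numbers `x² + x + A i` -/
noncomputable def modelSum {r : ℕ} (z : ℕ) (w : ℕ → ℝ) (A : Fin r → ℕ) (q a y : ℕ) : ℝ :=
  ∑ x ∈ (Icc 1 y).filter (fun x => x ≡ a [MOD q] ∧ ∀ i, ∀ p : ℕ, p.Prime → p ≤ z → ¬ p ∣ x ^ 2 + x + A i),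
    w x * ∏ i, (V z * Real.log ((x ^ 2 + x + A i : ℕ) : ℝ))⁻¹

open Classical in
/-- **The theorem.** For all `r`, `B`, `U`, `D`, `K` there is `B₀` such that for every `E`, every large `X`, every
integer `z` with `log ^ B₀ X ≤ z ≤ log ^ E X` and EVERY weight `w` with `|w x| ≤ 1`: for all but at most
`X ^ (2 r) / log ^ U X` of the vectors `A` of integers `1 ≤ A i ≤ B X²`, one has for all `y ≤ X`, all moduli
`1 ≤ q ≤ log ^ K X` and all classes `a` that `primeSum w A q a y` and `modelSum z w A q a y` differ by at most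
`X / log ^ D X`. -/
theorem result (r B U D K : ℕ) :
    ∃ B₀ : ℕ, ∀ E : ℕ, ∃ X₀ : ℕ, ∀ X : ℕ, X₀ ≤ X → ∀ z : ℕ, Real.log X ^ B₀ ≤ z → (z : ℝ) ≤ Real.log X ^ E →
    ∀ w : ℕ → ℝ, (∀ x, |w x| ≤ 1) →
    (((Fintype.piFinset (fun _ : Fin r => Icc 1 (B * X ^ 2))).filter (fun A =>
      ∃ y ≤ X, ∃ q a : ℕ, 1 ≤ q ∧ (q : ℝ) ≤ Real.log X ^ K ∧
        (X : ℝ) / Real.log X ^ D < |primeSum w A q a y - modelSum z w A q a y|)).card : ℝ) ≤
      (X : ℝ) ^ (2 * r) / Real.log X ^ U := by
  have hdeg : (Polynomial.X ^ 2 + Polynomial.X : Polynomial ℤ).natDegree = 2 := by compute_degree!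
  obtain ⟨B₀, h0⟩ := Pool.Agent.U918.LP.core r (fun _ => (Polynomial.X ^ 2 + Polynomial.X : Polynomial ℤ))
    (fun _ => by rw [hdeg]; norm_num) (fun _ => by rw [Polynomial.leadingCoeff, hdeg]; simp [Polynomial.coeff_X])
    (fun _ m => m ^ 2 + m) (fun _ m => by simp) (fun _ u v huv => by dsimp only; gcongr) (fun _ => true) B U D K
  refine ⟨B₀, fun E => ?_⟩
  obtain ⟨x0, hx0⟩ := h0 E
  refine ⟨x0, fun X hX z hz1 hz2 w hw => ?_⟩
  have key := hx0 X hX z hz1 hz2 w hw
  rw [prod_const, card_univ, Fintype.card_fin, hdeg, ← pow_mul] at key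
  exact key

end Pool.Agent.Results.MP_8be758_nt.ArbitraryWeights
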