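import Mathlib
import Pool.Agent.R463.PP9
import Pool.Agent.R463.PL

set_option autoImplicit false

/-!
# The joint law of the gaps and the residues of the arguments with almost prime values of `x² + x + A`

Let `A ≥ 3` be odd and call `x` sifted at the level `w` if `x² + x + A` has no prime factor `p ≤ w`. If
`x² + x + A > w` is a prime, then `x` is sifted; if `x` is sifted and `x² + x + A ≤ w ^ s`, then `x² + x + A` has at most
`s` prime factors. The possible residues of the sifted `x` modulo `q` are the `R` elements of `residues A q`, and their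
density is `δ = (R / q) ∏ (1 - (1 + (Δ / p)) / p)`, `Δ = 1 - 4 A`, over the primes `3 ≤ p ≤ w` which do not divide `q`.

For all `q`, `l`, `B` and `ε` there is `K` such that for all `c`, all large `w` and ALL odd `3 ≤ A ≤ w ^ B` with
`∏_{3 ≤ p ≤ w} (1 - (1 + (Δ / p)) / p) ≤ c / log w`, and for ALL intervals `(Z, Z + Y]` of length `Y ≥ w ^ K`: for all
residues `b_0, ..., b_l` in `residues A q` and all `s_j ≤ T_j` the number of the sifted `x` in the interval with
`x ≡ b_0 (mod q)` such that the `l` next sifted integers are congruent to `b_1, ..., b_l` and the `l` distances are in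
`(s_j, T_j]`, is `δ Y R ^ (-l - 1) ∏_j (exp (- δ s_j) - exp (- δ T_j))` up to `ε δ Y R ^ (-l - 1)`. So the residues of
consecutive sifted integers are independent and uniformly distributed in `residues A q`, the distances are independent
with the exponential law of the mean `1 / δ`, and the residues and the distances are independent, uniformly in `A`.
Every fixed `A` satisfies the condition on the product for all large `w`, with some `c`.
-/

namespace Pool.Agent.Results.MP_8be758_nt.JointLawGapsResidues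

open Finset Filter

/-- `x` is sifted at the level `w`: `x² + x + A` has no prime factor `p ≤ w`. -/
def Sifted (A w x : ℕ) : Prop := ∀ p : ℕ, p.Prime → p ≤ w → ¬ p ∣ x ^ 2 + x + A

/-- the next sifted integer after `x` -/
noncomputable def next (A w x : ℕ) : ℕ := sInf {y | x < y ∧ Sifted A w y}

/-- the residues `b` modulo `q` such that `b² + b + A` is prime to `q` -/
def residues (A q : ℕ) : Finset ℕ := (range q).filter (fun b : ℕ => Nat.Coprime (b ^ 2 + b + A) q)

/-- The product of `1 - (1 + (Δ / p)) / p`, `Δ = 1 - 4 A`, over the primes `3 ≤ p ≤ w` not dividing `q`. -/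
noncomputable def prodV (A w q : ℕ) : ℝ :=
  ∏ p ∈ (Icc 3 w).filter (fun p => p.Prime ∧ ¬ p ∣ q), (1 - (1 + (jacobiSym (1 - 4 * (A : ℤ)) p : ℝ)) / (p : ℝ))

/-- The density `(R / q) ∏ (1 - (1 + (Δ / p)) / p)` of the sifted integers; `R` is the number of the elements of
`residues A q`, the product is over the primes `3 ≤ p ≤ w` which do not divide `q`. -/
noncomputable def density (A w q : ℕ) : ℝ := (residues A q).card / (q : ℝ) * prodV A w q

/-- The number of the sifted `x` in `(Z, Z + Y]` such that `x ≡ b 0` and the next `l` sifted integers are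
`≡ b 1, ..., b l` modulo `q`, and the `l` distances between these `l + 1` consecutive sifted integers are in
`(s j, T j]`. -/
noncomputable def count (A w q l : ℕ) (b s T : ℕ → ℕ) (Z Y : ℕ) : ℕ :=
  Set.ncard {x : ℕ | Z < x ∧ x ≤ Z + Y ∧ Sifted A w x ∧ (∀ j ≤ l, (next A w)^[j] x % q = b j) ∧
    ∀ j < l, s j < (next A w)^[j + 1] x - (next A w)^[j] x ∧ (next A w)^[j + 1] x - (next A w)^[j] x ≤ T j}

/-- the joint law of the `l + 1` residues and the `l` gaps at the level `w`, with error `ε`, in all intervals of length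
at least `w ^ K` -/
def Law (A w q l K : ℕ) (ε : ℝ) : Prop :=
  ∀ Z Y : ℕ, w ^ K ≤ Y → ∀ b s T : ℕ → ℕ, (∀ j ≤ l, b j ∈ residues A q) → (∀ j < l, s j ≤ T j) →
    |(count A w q l b s T Z Y : ℝ) - density A w q * Y / (residues A q).card ^ (l + 1) *
        ∏ j ∈ range l, (Real.exp (-(density A w q * s j)) - Real.exp (-(density A w q * T j)))| ≤
      ε * (density A w q * Y / (residues A q).card ^ (l + 1))

open Pool.Agent.W123.RP Pool.Agent.H373R2.T7 Pool.Agent.W123.RU Pool.Agent.W123.RU.Poly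
  Pool.Agent.TH464.PO Pool.Agent.Y879.GL Pool.Agent.R463.PP Pool.Agent.R463.PS

/-- the system `x² + x + A` -/
noncomputable def tri (A : ℕ) : Fin 1 → Polynomial ℤ :=
  fun _ => Polynomial.X ^ 2 + Polynomial.X + Polynomial.C (A : ℤ)

lemma tri_eval (A : ℕ) (i : Fin 1) (m : ℤ) : (tri A i).eval m = m ^ 2 + m + A := by simp [tri]

lemma Q_tri (A p m : ℕ) : Q (tri A) p m ↔ p ∣ m ^ 2 + m + A := by
  unfold Q
  rw [Fin.exists_fin_one, tri_eval]
  constructor
  · intro h
    exact_mod_cast h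
  · intro h
    exact_mod_cast h

lemma mem_pz' {w p : ℕ} : p ∈ pz w ↔ p ≤ w ∧ p.Prime := by
  unfold pz
  rw [mem_filter, mem_Icc]
  exact ⟨fun h => ⟨h.1.2, h.2⟩, fun h => ⟨⟨h.2.one_lt.le, h.1⟩, h.2⟩⟩

lemma sf_tri (A w q m : ℕ) (hq : 1 ≤ q) (hqw : q ≤ w) :
    GB (Sf (Qd (Q (tri A)) q) w) q (residues A q) m ↔ Sifted A w m := by
  have cop : Nat.Coprime ((m % q) ^ 2 + m % q + A) q ↔ ∀ p : ℕ, p.Prime → p ∣ q → ¬ p ∣ m ^ 2 + m + A := by
    have hpq : ∀ p : ℕ, p ∣ q → (p ∣ (m % q) ^ 2 + m % q + A ↔ p ∣ m ^ 2 + m + A) := by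
      intro p hp
      have h1 : m % q ≡ m [MOD p] := (Nat.mod_modEq m q).of_dvd hp
      have h2 : (m % q) ^ 2 + m % q + A ≡ m ^ 2 + m + A [MOD p] := ((h1.pow 2).add h1).add_right A
      exact h2.dvd_iff dvd_rfl
    constructor
    · intro h p hp hpd hd
      rw [← hpq p hpd] at hd
      exact hp.one_lt.ne' (Nat.eq_one_of_dvd_coprimes h hd hpd)
    · intro h
      by_contra hcon
      obtain ⟨p, hp, h1, h2⟩ := Nat.Prime.not_coprime_iff_dvd.1 hcon
      rw [hpq p h2] at h1
      exact h p hp h2 h1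
  unfold GB Sf Sifted residues
  rw [mem_filter, mem_range, cop]
  constructor
  · rintro ⟨⟨-, h1⟩, h3⟩ p hp hpw
    by_cases hpq : p ∣ q
    · exact h1 p hp hpq
    · have := h3 p (mem_pz'.2 ⟨hpw, hp⟩)
      unfold Qd at this
      rw [Q_tri] at this
      tauto
  · intro h
    refine ⟨⟨Nat.mod_lt _ hq, ?_⟩, ?_⟩
    · intro p hp hpq
      exact h p hp ((Nat.le_of_dvd hq hpq).trans hqw)
    · intro p hp
      obtain ⟨h1, h2⟩ := mem_pz'.1 hp
      unfold Qd
      rw [Q_tri]
      have := h p h2 h1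
      tauto

lemma odd_val {A : ℕ} (hA : Odd A) (m : ℕ) : ¬ 2 ∣ m ^ 2 + m + A := by
  have h1 : Even (m ^ 2 + m) := by
    have := Nat.even_mul_succ_self m
    have h2 : m ^ 2 + m = m * (m + 1) := by ring
    rwa [h2]
  have h2 : Odd (m ^ 2 + m + A) := h1.add_odd hA
  rw [← even_iff_two_dvd, Nat.not_even_iff_odd]
  exact h2

open Classical in
lemma nu_two (A p : ℕ) (hp : p.Prime) (h3 : 3 ≤ p) :
    ((nuB (Q (tri A)) p : ℕ) : ℤ) = 1 + jacobiSym (1 - 4 * (A : ℤ)) p := by
  have : Fact p.Prime := ⟨hp⟩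
  have hp2 : p ≠ 2 := by omega
  have h2 : (2 : ZMod p) ≠ 0 := by
    intro h
    have h1 : ((2 : ℕ) : ZMod p) = 0 := by exact_mod_cast h
    rw [ZMod.natCast_eq_zero_iff] at h1
    have := Nat.le_of_dvd (by norm_num) h1
    omega
  have h4 : (4 : ZMod p) ≠ 0 := by
    have : (4 : ZMod p) = 2 * 2 := by norm_num
    rw [this]
    exact mul_ne_zero h2 h2
  have hcard := legendreSym.card_sqrts p hp2 (1 - 4 * (A : ℤ))
  rw [← jacobiSym.legendreSym.to_jacobiSym, add_comm, ← hcard]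
  refine congrArg (fun n : ℕ => (n : ℤ)) ?_
  unfold nuB
  apply card_bij (fun (r : ℕ) _ => (2 * (r : ZMod p) + 1))
  · intro r hr
    rw [mem_filter, mem_range, Q_tri] at hr
    rw [Set.mem_toFinset]
    show (2 * (r : ZMod p) + 1) ^ 2 = ((1 - 4 * (A : ℤ) : ℤ) : ZMod p)
    have h5 : ((r ^ 2 + r + A : ℕ) : ZMod p) = 0 := (ZMod.natCast_eq_zero_iff _ _).2 hr.2
    push_cast at h5 ⊢
    linear_combination 4 * h5
  · intro r hr r' hr' h
    rw [mem_filter, mem_range] at hr hr'
    have h5 : (r : ZMod p) = r' := by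
      have h6 : (2 : ZMod p) * r = 2 * r' := by linear_combination h
      exact mul_left_cancel₀ h2 h6
    rw [ZMod.natCast_eq_natCast_iff'] at h5
    rwa [Nat.mod_eq_of_lt hr.1, Nat.mod_eq_of_lt hr'.1] at h5
  · intro y hy
    rw [Set.mem_toFinset] at hy
    have hy' : y ^ 2 = ((1 - 4 * (A : ℤ) : ℤ) : ZMod p) := hy
    push_cast at hy'
    refine ⟨((y - 1) * (2 : ZMod p)⁻¹).val, ?_, ?_⟩
    · rw [mem_filter, mem_range, Q_tri]
      refine ⟨ZMod.val_lt _, ?_⟩
      rw [← ZMod.natCast_eq_zero_iff]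
      push_cast
      rw [ZMod.natCast_zmod_val]
      have h6 : (4 : ZMod p) * (((y - 1) * (2 : ZMod p)⁻¹) ^ 2 + (y - 1) * (2 : ZMod p)⁻¹ + A) = 0 := by
        field_simp
        linear_combination 4 * hy'
      exact (mul_eq_zero.1 h6).resolve_left h4
    · rw [ZMod.natCast_zmod_val]
      field_simp
      ring

lemma nu_zero {A : ℕ} (hA : Odd A) : nuB (Q (tri A)) 2 = 0 := by
  classical
  unfold nuB
  rw [card_eq_zero, filter_eq_empty_iff]
  intro m _ h
  rw [Q_tri] at h
  exact odd_val hA m h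

lemma Vq_tri {A : ℕ} (hA : Odd A) (w q : ℕ) : Vq (Qd (Q (tri A)) q) w = prodV A w q := by
  classical
  unfold Vq prodV
  symm
  have hqd : ∀ p : ℕ, ¬ p ∣ q → nuB (Qd (Q (tri A)) q) p = nuB (Q (tri A)) p := by
    intro p hp
    unfold nuB
    congr 1
    apply filter_congr
    intro m _
    unfold Qd
    tauto
  have h1 : ∏ p ∈ (Icc 3 w).filter (fun p => p.Prime ∧ ¬ p ∣ q),
        (1 - (1 + (jacobiSym (1 - 4 * (A : ℤ)) p : ℝ)) / (p : ℝ)) =
      ∏ p ∈ (Icc 3 w).filter (fun p => p.Prime ∧ ¬ p ∣ q), (1 - (nuB (Qd (Q (tri A)) q) p : ℝ) / p) := by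
    apply prod_congr rfl
    intro p hp
    rw [mem_filter, mem_Icc] at hp
    rw [hqd p hp.2.2]
    have h2 := nu_two A p hp.2.1 hp.1.1
    have h3 : ((nuB (Q (tri A)) p : ℕ) : ℝ) = 1 + (jacobiSym (1 - 4 * (A : ℤ)) p : ℝ) := by
      exact_mod_cast congrArg (fun z : ℤ => (z : ℝ)) h2
    rw [h3]
  rw [h1]
  apply prod_subset
  · intro p hp
    rw [mem_filter, mem_Icc] at hp
    exact mem_pz'.2 ⟨hp.1.2, hp.2.1⟩
  · intro p hp hnot
    obtain ⟨h2, h3⟩ := mem_pz'.1 hp
    have h0 : nuB (Qd (Q (tri A)) q) p = 0 := by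
      by_cases hpq : p ∣ q
      · unfold nuB
        rw [card_eq_zero, filter_eq_empty_iff]
        intro m _ hm
        exact hm.1 hpq
      · rw [hqd p hpq]
        by_cases h5 : 3 ≤ p
        · exact absurd (mem_filter.2 ⟨mem_Icc.2 ⟨h5, h2⟩, h3, hpq⟩) hnot
        · have : p = 2 := by
            have := h3.two_le
            omega
          subst this
          exact nu_zero hA
    rw [h0, Nat.cast_zero, zero_div, sub_zero]

lemma count_eq (A w q l : ℕ) (hq : 1 ≤ q) (hqw : q ≤ w) (b s T : ℕ → ℕ) (Z Y : ℕ) :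
    count A w q l b s T Z Y =
      Pool.Agent.R463.PP.cnt (Qd (Q (tri A)) q) w q l (residues A q) (b 0) (fun j => b (j + 1)) s T Z Y := by
  classical
  have hG : GB (Sf (Qd (Q (tri A)) q) w) q (residues A q) = Sifted A w := by
    funext m
    exact propext (sf_tri A w q m hq hqw)
  have hnx : nx (Sifted A w) = next A w := rfl
  unfold count Pool.Agent.R463.PP.cnt
  rw [← Set.ncard_coe_finset]
  congr 1
  ext m
  simp only [Set.mem_ofPred_eq, coe_filter, mem_Ioc, Pat, hG, Ev, Pool.Agent.R463.PP.sq, hnx]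
  constructor
  · rintro ⟨h1, h2, h3, h4, h5⟩
    refine ⟨⟨h1, h2⟩, h3, ?_, ?_⟩
    · have := h4 0 (Nat.zero_le _)
      simpa using this
    · intro j hj
      exact ⟨h4 (j + 1) hj, h5 j hj⟩
  · rintro ⟨⟨h1, h2⟩, h3, h4, h5⟩
    refine ⟨h1, h2, h3, ?_, fun j hj => (h5 j hj).2⟩
    intro j hj
    rcases Nat.eq_zero_or_pos j with h | h
    · subst h
      simpa using h4
    · obtain ⟨i, rfl⟩ : ∃ i, j = i + 1 := ⟨j - 1, by omega⟩
      exact (h5 i (by omega)).1

lemma tri_form (A : ℕ) (i : Fin 1) :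
    tri A i = Polynomial.C 1 * Polynomial.X ^ 2 + Polynomial.C 1 * Polynomial.X + Polynomial.C (A : ℤ) := by
  simp [tri]

lemma tri_deg (A : ℕ) (i : Fin 1) : (tri A i).natDegree = 2 := by
  rw [tri_form]
  exact Polynomial.natDegree_quadratic one_ne_zero

lemma tri_lead (A : ℕ) (i : Fin 1) : (tri A i).leadingCoeff = 1 := by
  rw [tri_form]
  exact Polynomial.leadingCoeff_quadratic one_ne_zero

lemma tri_irr {A : ℕ} (hA : 1 ≤ A) (i : Fin 1) : Irreducible (tri A i) := by
  have hm : (tri A i).Monic := tri_lead A i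
  rw [Polynomial.Monic.irreducible_iff_roots_eq_zero_of_degree_le_three hm (by rw [tri_deg])
    (by rw [tri_deg]; norm_num)]
  rw [Multiset.eq_zero_iff_forall_notMem]
  intro x hx
  have h1 := (Polynomial.mem_roots'.1 hx).2
  rw [Polynomial.IsRoot.def, tri_eval] at h1
  have h2 : (1 : ℤ) ≤ A := by exact_mod_cast hA
  nlinarith [mul_self_nonneg (2 * x + 1)]

lemma exists_good {A : ℕ} (hA : Odd A) (p : ℕ) (hp : p.Prime) : ∃ m : ℕ, ¬ p ∣ m ^ 2 + m + A := by
  by_contra hcon
  push Not at hcon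
  have h5 := hcon 0
  have h6 := hcon 1
  have h8 : p ∣ 2 := by
    have := (Nat.dvd_add_right h5).1 (by
      have e : (0 ^ 2 + 0 + A) + 2 = 1 ^ 2 + 1 + A := by ring
      rw [e]
      exact h6)
    exact this
  have h9 : p = 2 := by
    have := Nat.le_of_dvd (by norm_num) h8
    have := hp.two_le
    omega
  subst h9
  exact odd_val hA 0 h5

lemma tri_us {A : ℕ} (hA : Odd A) (h3 : 3 ≤ A) (X : ℝ) (hX : (A : ℝ) ≤ X) (U : ℝ) : US 1 2 X U (tri A) where
  irr := tri_irr (by omega)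
  deg := by
    intro i
    rw [tri_deg]
    norm_num
  degD := by
    intro i
    rw [tri_deg]
  hgt := by
    intro i n
    have h1 : (3 : ℝ) ≤ A := by exact_mod_cast h3
    rw [tri_form]
    simp only [Polynomial.coeff_add, Polynomial.coeff_C_mul, Polynomial.coeff_X_pow, Polynomial.coeff_X,
      Polynomial.coeff_C, one_mul]
    rcases n with _ | _ | _ | n
    · norm_num
      exact hX
    · norm_num
      linarith
    · norm_num
      linarith
    · norm_num
      rw [if_neg (by omega)]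
      norm_num
      linarith
  adm := by
    intro p hp
    obtain ⟨m, hm⟩ := exists_good hA p hp
    refine ⟨m, fun i hi => hm ?_⟩
    rw [tri_eval] at hi
    exact_mod_cast hi
  tr := by
    intro i j t ht _ ha
    obtain ⟨u, hu⟩ := ha
    obtain ⟨c, hc, hcu⟩ := Polynomial.isUnit_iff.1 u.isUnit
    rw [← hcu] at hu
    have h1 := congrArg (Polynomial.eval (-1)) hu
    have h0 := congrArg (Polynomial.eval 0) hu
    simp only [Polynomial.eval_comp, Polynomial.eval_mul, Polynomial.eval_add, Polynomial.eval_C,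
      Polynomial.eval_X, tri_eval] at h0 h1
    have h2 : ((0 : ℤ) + t) ^ 2 + (0 + t) + A = (-1 + t) ^ 2 + (-1 + t) + A := by
      rw [← h0, ← h1]
      ring
    have h5 : (t : ℤ) = 0 := by nlinarith
    have : t = 0 := by exact_mod_cast h5
    omega

lemma Vq_split (A w q : ℕ) (hq : 1 ≤ q) (hqw : q ≤ w) :
    Vq (Q (tri A)) w = (∏ p ∈ q.primeFactors, (1 - (nuB (Q (tri A)) p : ℝ) / p)) * Vq (Qd (Q (tri A)) q) w := by
  classical
  unfold Vq
  rw [← Finset.prod_filter_mul_prod_filter_not (pz w) (fun p => p ∣ q),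
    ← Finset.prod_filter_mul_prod_filter_not (pz w) (fun p => p ∣ q)
      (fun p => 1 - (nuB (Qd (Q (tri A)) q) p : ℝ) / p)]
  have h1 : (pz w).filter (fun p => p ∣ q) = q.primeFactors := by
    ext p
    rw [mem_filter, mem_pz', Nat.mem_primeFactors]
    constructor
    · rintro ⟨⟨_, h2⟩, h3⟩
      exact ⟨h2, h3, by omega⟩
    · rintro ⟨h2, h3, _⟩
      exact ⟨⟨(Nat.le_of_dvd hq h3).trans hqw, h2⟩, h3⟩
  have h2 : ∏ p ∈ (pz w).filter (fun p => p ∣ q), (1 - (nuB (Qd (Q (tri A)) q) p : ℝ) / p) = 1 := by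
    apply prod_eq_one
    intro p hp
    have h3 : nuB (Qd (Q (tri A)) q) p = 0 := by
      unfold nuB
      rw [card_eq_zero, filter_eq_empty_iff]
      intro m _ hm
      exact hm.1 (mem_filter.1 hp).2
    rw [h3, Nat.cast_zero, zero_div, sub_zero]
  have h3 : ∏ p ∈ (pz w).filter (fun p => ¬ p ∣ q), (1 - (nuB (Qd (Q (tri A)) q) p : ℝ) / p) =
      ∏ p ∈ (pz w).filter (fun p => ¬ p ∣ q), (1 - (nuB (Q (tri A)) p : ℝ) / p) := by
    apply prod_congr rfl
    intro p hp
    have h4 : nuB (Qd (Q (tri A)) q) p = nuB (Q (tri A)) p := by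
      unfold nuB
      congr 1
      apply filter_congr
      intro m _
      unfold Qd
      exact ⟨fun h => h.2, fun h => ⟨(mem_filter.1 hp).2, h⟩⟩
    rw [h4]
  rw [h1, ← h1, h2, h3, one_mul]

/-- the factors of the primes dividing `q` are bounded below, uniformly in `A` -/
lemma c_low {A : ℕ} (hA : Odd A) (q : ℕ) :
    (1 / 3 : ℝ) ^ q.primeFactors.card ≤ ∏ p ∈ q.primeFactors, (1 - (nuB (Q (tri A)) p : ℝ) / p) := by
  rw [← prod_const]
  apply Finset.prod_le_prod
  · intro p _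
    norm_num
  · intro p hp
    have hp' := (Nat.mem_primeFactors.1 hp).1
    rcases Nat.lt_or_ge p 3 with h | h
    · have h2 : p = 2 := by
        have := hp'.two_le
        omega
      subst h2
      rw [nu_zero hA]
      norm_num
    · have h2 := nu_two A p hp' h
      have h4 : jacobiSym (1 - 4 * (A : ℤ)) p ≤ 1 := by
        rcases jacobiSym.trichotomy (1 - 4 * (A : ℤ)) p with h5 | h5 | h5 <;> rw [h5] <;> norm_num
      have h5 : ((nuB (Q (tri A)) p : ℕ) : ℤ) ≤ 2 := by
        rw [h2]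
        linarith
      have h6 : ((nuB (Q (tri A)) p : ℕ) : ℝ) ≤ 2 := by exact_mod_cast h5
      have h7 : (3 : ℝ) ≤ p := by exact_mod_cast h
      have h8 : (nuB (Q (tri A)) p : ℝ) / p ≤ 2 / 3 := by
        rw [div_le_div_iff₀ (by linarith) (by norm_num)]
        nlinarith
      linarith

lemma residues_sub (A q : ℕ) : residues A q ⊆ range q := filter_subset _ _

/-- there are possible residues -/
lemma residues_pos {A : ℕ} (hA : Odd A) (q : ℕ) (hq : 1 ≤ q) : 1 ≤ (residues A q).card := by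
  classical
  have h1 : ∀ p : ℕ, ∃ m : ℕ, p.Prime → ¬ p ∣ m ^ 2 + m + A := by
    intro p
    by_cases hp : p.Prime
    · obtain ⟨m, hm⟩ := exists_good hA p hp
      exact ⟨m, fun _ => hm⟩
    · exact ⟨0, fun h => absurd h hp⟩
  choose g hg using h1
  obtain ⟨k, hk⟩ := Nat.chineseRemainderOfFinset g id q.primeFactors
    (fun p hp => (Nat.prime_of_mem_primeFactors hp).ne_zero)
    (fun p hp p' hp' hne => (Nat.coprime_primes (Nat.prime_of_mem_primeFactors hp)
      (Nat.prime_of_mem_primeFactors hp')).2 hne)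
  apply Finset.card_pos.2
  refine ⟨k % q, ?_⟩
  unfold residues
  rw [mem_filter, mem_range]
  refine ⟨Nat.mod_lt _ hq, ?_⟩
  by_contra hcon
  obtain ⟨p, hp, h2, h3⟩ := Nat.Prime.not_coprime_iff_dvd.1 hcon
  have h4 : k % q ≡ k [MOD p] := (Nat.mod_modEq k q).of_dvd h3
  have h5 : k ≡ g p [MOD p] := hk p (Nat.mem_primeFactors.2 ⟨hp, h3, by omega⟩)
  have h6 : k % q ≡ g p [MOD p] := h4.trans h5
  have h7 : (k % q) ^ 2 + k % q + A ≡ (g p) ^ 2 + g p + A [MOD p] := ((h6.pow 2).add h6).add_right A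
  exact hg p hp ((h7.dvd_iff dvd_rfl).1 h2)

/-- few prime factors -/
lemma few (z s N : ℕ) (hN : 0 < N) (hNz : N ≤ z ^ s) (h : ∀ p : ℕ, p.Prime → p ≤ z → ¬ p ∣ N) :
    N.primeFactorsList.length ≤ s := by
  by_contra hcon
  rw [not_le] at hcon
  have h1 : ∀ q ∈ N.primeFactorsList, z + 1 ≤ q := by
    intro q hq
    by_contra h2
    exact h q (Nat.prime_of_mem_primeFactorsList hq) (by omega) (Nat.dvd_of_mem_primeFactorsList hq)
  have h2 : (z + 1) ^ N.primeFactorsList.length ≤ N.primeFactorsList.prod := List.pow_card_le_prod _ _ h1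
  rw [Nat.prod_primeFactorsList hN.ne'] at h2
  have h3 : z ^ s < (z + 1) ^ N.primeFactorsList.length := by
    calc z ^ s ≤ (z + 1) ^ s := Nat.pow_le_pow_left (by omega) s
      _ < (z + 1) ^ N.primeFactorsList.length := Nat.pow_lt_pow_right (by
          rcases Nat.eq_zero_or_pos z with h4 | h4
          · exfalso
            subst h4
            rcases Nat.eq_zero_or_pos s with h5 | h5
            · subst h5
              have : N = 1 := by simp at hNz; omega
              rw [this] at hcon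
              simp at hcon
            · rw [Nat.zero_pow h5] at hNz
              omega
          · omega) hcon
  omega

open Classical in
/-- the parameters of the library theorem, uniform in the set of the residues -/
lemma par_all (q l : ℕ) (hq : 1 ≤ q) (ε : ℝ) (hε : 0 < ε) : ∃ P : Par, ∀ B : Finset ℕ, B ⊆ range q → 1 ≤ B.card →
    ∀ (Q : ℕ → ℕ → Prop) (Y y : ℕ), Ok P (1 * 2 + 1) q Q Y y →
      ∀ Z c0 : ℕ, c0 ∈ B → ∀ b s T : ℕ → ℕ, (∀ j < l, b j ∈ B) → (∀ j < l, s j ≤ T j) →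
        |(Pool.Agent.R463.PP.cnt Q y q l B c0 b s T Z Y : ℝ) - Y * Vq Q y / q * (gp (Vq Q y) q l B s T / B.card ^ l)| ≤
          ε * (Y * Vq Q y / q) := by
  have key : ∀ S : Finset (Finset ℕ), (∀ B ∈ S, B ⊆ range q ∧ 1 ≤ B.card) → ∃ P : Par, ∀ B ∈ S,
      ∀ (Q : ℕ → ℕ → Prop) (Y y : ℕ), Ok P (1 * 2 + 1) q Q Y y →
      ∀ Z c0 : ℕ, c0 ∈ B → ∀ b s T : ℕ → ℕ, (∀ j < l, b j ∈ B) → (∀ j < l, s j ≤ T j) →
        |(Pool.Agent.R463.PP.cnt Q y q l B c0 b s T Z Y : ℝ) - Y * Vq Q y / q * (gp (Vq Q y) q l B s T / B.card ^ l)| ≤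
          ε * (Y * Vq Q y / q) := by
    intro S
    induction S using Finset.induction_on with
    | empty =>
      intro _
      obtain ⟨P, _⟩ := runs (1 * 2 + 1) q l (by norm_num) hq (range q) subset_rfl (by rwa [card_range]) ε hε
      exact ⟨P, fun B hB => absurd hB (Finset.notMem_empty B)⟩
    | insert B S hBS ih =>
      intro hS
      obtain ⟨P1, hP1⟩ := ih (fun B' hB' => hS B' (mem_insert_of_mem hB'))
      obtain ⟨h1, h2⟩ := hS B (mem_insert_self B S)
      obtain ⟨P2, hP2⟩ := runs (1 * 2 + 1) q l (by norm_num) hq B h1 h2 ε hε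
      obtain ⟨P, _, hP⟩ := Par.combine P1 P2
      refine ⟨P, ?_⟩
      intro B' hB' Q Y y hok
      obtain ⟨hok1, hok2⟩ := hP _ q Q Y y hok
      rcases mem_insert.1 hB' with rfl | h3
      · exact hP2 Q Y y hok2
      · exact hP1 B' h3 Q Y y hok1
  obtain ⟨P, hP⟩ := key ((range q).powerset.filter (fun B => 1 ≤ B.card)) (fun B hB => by
    rw [mem_filter, mem_powerset] at hB
    exact hB)
  exact ⟨P, fun B hB h1 => hP B (by rw [mem_filter, mem_powerset]; exact ⟨hB, h1⟩)⟩

lemma prodV_one {A : ℕ} (hA : Odd A) (w : ℕ) (hw : 1 ≤ w) : Vq (Q (tri A)) w = prodV A w 1 := by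
  rw [Vq_split A w 1 le_rfl hw, Nat.primeFactors_one, prod_empty, one_mul, Vq_tri hA]

lemma law_unif (q l B : ℕ) (hq : 1 ≤ q) (ε : ℝ) (hε : 0 < ε) : ∃ K₀ : ℕ, 2 ≤ K₀ ∧ ∀ K : ℕ, K₀ ≤ K → ∀ c : ℝ,
    ∃ w₀ : ℕ, ∀ w : ℕ, w₀ ≤ w → ∀ A : ℕ, Odd A → 3 ≤ A → A ≤ w ^ B → prodV A w 1 ≤ c / Real.log w →
      Law A w q l K ε := by
  classical
  have hq0 : (0 : ℝ) < q := by exact_mod_cast hq
  obtain ⟨P, hP⟩ := par_all q l hq (ε / q ^ l) (by positivity)
  obtain ⟨r0, hr0⟩ := ok_polys 1 2 P 1 (1 / 2) 1 one_pos (by norm_num) one_pos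
  refine ⟨max r0 (max B 2), (le_max_right _ _).trans (le_max_right _ _), ?_⟩
  intro K hKK c
  have hKr : r0 ≤ K := (le_max_left _ _).trans hKK
  have hKB : B ≤ K := ((le_max_left _ _).trans (le_max_right _ _)).trans hKK
  have hK2 : 2 ≤ K := ((le_max_right _ _).trans (le_max_right _ _)).trans hKK
  have hK0 : (0 : ℝ) < K := by exact_mod_cast (show 0 < K by omega)
  obtain ⟨d, hd⟩ : ∃ d : ℝ, d = (3 : ℝ) ^ q.primeFactors.card := ⟨_, rfl⟩
  have hd0 : 0 < d := by rw [hd]; positivity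
  have hlog : Tendsto (fun X : ℕ => Real.log (X : ℝ)) atTop atTop :=
    Real.tendsto_log_atTop.comp tendsto_natCast_atTop_atTop
  have hev := ((hr0 K hKr (d * (|c| * K))).and (hlog.eventually_ge_atTop 1))
  have hpow : Tendsto (fun w : ℕ => w ^ K) atTop atTop := tendsto_pow_atTop (by omega)
  obtain ⟨w0, hw0⟩ := eventually_atTop.1 (hpow.eventually hev)
  refine ⟨max w0 (max q 1), ?_⟩
  intro w hw A hA h3 hAw hV Z Y hY b s T hb hsT
  obtain ⟨h1, h2⟩ := hw0 w ((le_max_left _ _).trans hw)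
  have hqw : q ≤ w := ((le_max_left _ _).trans (le_max_right _ _)).trans hw
  have hw1 : 1 ≤ w := hq.trans hqw
  have hfl : ⌊((w ^ K : ℕ) : ℝ) ^ (1 / (K : ℝ))⌋₊ = w := by
    push_cast
    rw [one_div, Real.pow_rpow_inv_natCast (Nat.cast_nonneg w) (by omega), Nat.floor_natCast]
  have hA6 : (A : ℝ) ≤ ((w ^ K : ℕ) : ℝ) := by
    exact_mod_cast hAw.trans (Nat.pow_le_pow_right hw1 hKB)
  have hl0 : 0 < Real.log ((w ^ K : ℕ) : ℝ) := by linarith
  have hlK : Real.log ((w ^ K : ℕ) : ℝ) = K * Real.log w := by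
    push_cast
    rw [Real.log_pow]
  have hlw : 0 < Real.log (w : ℝ) := by
    rw [hlK] at hl0
    exact (pos_iff_pos_of_mul_pos hl0).1 hK0
  obtain ⟨R, hR⟩ : ∃ R : ℝ, R = (residues A q).card := ⟨_, rfl⟩
  have hR1 : 1 ≤ R := by
    rw [hR]
    exact_mod_cast residues_pos hA q hq
  have hR0 : 0 < R := by linarith
  have hRq : R ≤ q := by
    rw [hR]
    have := card_le_card (residues_sub A q)
    rw [card_range] at this
    exact_mod_cast this
  have hVd : Vq (Qd (Q (tri A)) q) w ≤ d * (|c| * K) / Real.log ((w ^ K : ℕ) : ℝ) := by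
    have h4 := Vq_split A w q hq hqw
    rw [prodV_one hA w hw1] at h4
    have h5 := c_low hA q
    have h6 : 0 < Vq (Qd (Q (tri A)) q) w :=
      Vq_pos _ (fun p hp => (nuB_Qd (Q (tri A)) q p).trans_lt (us_adm (tri_us hA h3 _ hA6 1) p hp)) w
    have h7 : (1 / 3 : ℝ) ^ q.primeFactors.card = 1 / d := by
      rw [hd, one_div_pow]
    rw [h7] at h5
    have h8 : 1 / d * Vq (Qd (Q (tri A)) q) w ≤ c / Real.log w := by
      refine le_trans ?_ hV
      rw [h4]
      exact mul_le_mul_of_nonneg_right h5 h6.le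
    have h9 : c / Real.log w ≤ |c| / Real.log w := div_le_div_of_nonneg_right (le_abs_self c) hlw.le
    have h10 : Vq (Qd (Q (tri A)) q) w ≤ d * (|c| / Real.log w) := by
      have h11 := h8.trans h9
      rw [one_div, inv_mul_le_iff₀ hd0] at h11
      exact h11
    refine h10.trans (le_of_eq ?_)
    rw [hlK]
    field_simp
  have hok : Ok P (1 * 2 + 1) q (Qd (Q (tri A)) q) Y w := by
    have := h1 (tri A) (by
      rw [Real.rpow_one]
      exact tri_us hA h3 _ hA6 _) q (by
      rw [hfl]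
      exact hVd) Y (by
      rw [Real.rpow_one]
      exact_mod_cast hY)
    rwa [hfl] at this
  have hmain := hP (residues A q) (residues_sub A q) (residues_pos hA q hq) (Qd (Q (tri A)) q) Y w hok Z (b 0)
    (hb 0 (Nat.zero_le _)) (fun j => b (j + 1)) s T (fun j hj => hb (j + 1) hj) hsT
  rw [← count_eq A w q l hq hqw b s T Z Y] at hmain
  obtain ⟨V, hVdef⟩ : ∃ V, V = Vq (Qd (Q (tri A)) q) w := ⟨_, rfl⟩
  have hV0 : 0 < V := by
    rw [hVdef]
    exact Vq_pos _ (fun p hp => (nuB_Qd (Q (tri A)) q p).trans_lt (us_adm (tri_us hA h3 _ hA6 1) p hp)) w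
  have hdens : density A w q = R * V / q := by
    unfold density
    rw [← Vq_tri hA, ← hVdef, ← hR]
    ring
  rw [← hVdef] at hmain
  unfold gp at hmain
  rw [← hR] at hmain ⊢
  rw [hdens]
  have e1 : R * V / q * Y / R ^ (l + 1) = Y * V / q / R ^ l := by
    rw [pow_succ]
    field_simp
  rw [e1]
  have e2 : Y * V / q / R ^ l * ∏ j ∈ range l, (Real.exp (-(R * V / q * s j)) - Real.exp (-(R * V / q * T j))) =
      Y * V / q * ((∏ j ∈ range l, (Real.exp (-(R * V / q * s j)) - Real.exp (-(R * V / q * T j)))) / R ^ l) := by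
    ring
  rw [e2]
  refine hmain.trans ?_
  have h12 : ε / (q : ℝ) ^ l ≤ ε / R ^ l :=
    div_le_div_of_nonneg_left hε.le (by positivity) (pow_le_pow_left₀ hR0.le hRq l)
  have h13 : 0 ≤ (Y : ℝ) * V / q := by positivity
  calc ε / (q : ℝ) ^ l * (Y * V / q) ≤ ε / R ^ l * (Y * V / q) := mul_le_mul_of_nonneg_right h12 h13
    _ = ε * (Y * V / q / R ^ l) := by ring

/-- the condition on the product holds for every fixed `A` -/
lemma prod_fixed {A : ℕ} (hA : Odd A) (h3 : 3 ≤ A) : ∃ (c : ℝ) (w₀ : ℕ), ∀ w : ℕ, w₀ ≤ w →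
    prodV A w 1 ≤ c / Real.log w := by
  have hus := tri_us hA h3 (A : ℝ) le_rfl 1
  obtain ⟨v, C, hv, hC, hV⟩ := V_fixed (tri A) hus.irr (fun i => Nat.one_le_iff_ne_zero.2 (hus.deg i))
    (by
      intro i
      rw [tri_lead]
      norm_num)
    (fun i j _ => Subsingleton.elim i j) hus.adm 2 le_rfl
  have hpow : Tendsto (fun w : ℕ => w ^ 2) atTop atTop := tendsto_pow_atTop (by norm_num)
  obtain ⟨w0, hw0⟩ := eventually_atTop.1 (hpow.eventually hV)
  refine ⟨C, max w0 2, ?_⟩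
  intro w hw
  obtain ⟨h1, h2⟩ := hw0 w ((le_max_left _ _).trans hw)
  have hw2 : 2 ≤ w := (le_max_right _ _).trans hw
  have hfl : ⌊((w ^ 2 : ℕ) : ℝ) ^ (1 / ((2 : ℕ) : ℝ))⌋₊ = w := by
    push_cast
    have := Real.pow_rpow_inv_natCast (Nat.cast_nonneg (α := ℝ) w) (show (2 : ℕ) ≠ 0 by norm_num)
    push_cast at this
    rw [one_div, this, Nat.floor_natCast]
  rw [V_eq, hfl, prodV_one hA w (by omega), pow_one] at h2
  have hlw : 0 < Real.log (w : ℝ) := Real.log_pos (by exact_mod_cast hw2)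
  refine h2.trans ?_
  apply div_le_div_of_nonneg_left hC.le hlw
  push_cast
  rw [Real.log_pow]
  push_cast
  linarith

/-- **The joint law of the gaps and the residues of the arguments with almost prime values of `x² + x + A`.** -/
theorem result :
    -- the arguments of the prime values are sifted
    (∀ A w x : ℕ, w < x ^ 2 + x + A → (x ^ 2 + x + A).Prime → Sifted A w x) ∧
    -- the values at the sifted arguments have few prime factors
    (∀ A w s x : ℕ, 1 ≤ A → x ^ 2 + x + A ≤ w ^ s → Sifted A w x →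
      (x ^ 2 + x + A).primeFactorsList.length ≤ s) ∧
    -- the joint law of `l + 1` residues and `l` gaps, uniformly in `A`, and for every fixed `A`
    (∀ q l B : ℕ, 1 ≤ q → ∀ ε : ℝ, 0 < ε → ∃ K : ℕ,
      (∀ c : ℝ, ∃ w₀ : ℕ, ∀ w : ℕ, w₀ ≤ w → ∀ A : ℕ, Odd A → 3 ≤ A → A ≤ w ^ B →
        prodV A w 1 ≤ c / Real.log w → Law A w q l K ε) ∧
      ∀ A : ℕ, Odd A → 3 ≤ A → ∃ w₀ : ℕ, ∀ w : ℕ, w₀ ≤ w → Law A w q l K ε) ∧
    -- the condition on the product holds for every fixed `A`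
    (∀ A : ℕ, Odd A → 3 ≤ A → ∃ (c : ℝ) (w₀ : ℕ), ∀ w : ℕ, w₀ ≤ w → prodV A w 1 ≤ c / Real.log w) := by
  refine ⟨?_, ?_, ?_, fun A hA h3 => prod_fixed hA h3⟩
  · intro A w x hw h1 p hp hpw h2
    have := (Nat.prime_dvd_prime_iff_eq hp h1).1 h2
    omega
  · intro A w s x hA hs h
    exact few w s _ (by omega) hs h
  · intro q l B hq ε hε
    obtain ⟨K1, hK1, h1⟩ := law_unif q l B hq ε hε
    obtain ⟨K2, hK2, h2⟩ := law_unif q l 1 hq ε hε
    refine ⟨max K1 K2, h1 _ (le_max_left _ _), ?_⟩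
    intro A hA h3
    obtain ⟨c, w1, hw1⟩ := prod_fixed hA h3
    obtain ⟨w2, hw2⟩ := h2 _ (le_max_right _ _) c
    refine ⟨max (max w1 w2) A, ?_⟩
    intro w hw
    exact hw2 w (((le_max_right _ _).trans (le_max_left _ _)).trans hw) A hA h3
      (by rw [pow_one]; exact (le_max_right _ _).trans hw)
      (hw1 w (((le_max_left _ _).trans (le_max_left _ _)).trans hw))

end Pool.Agent.Results.MP_8be758_nt.JointLawGapsResidues
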