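import Pool.Agent.U832.RH.Use
import Pool.Agent.U832.RH.QGe
import Pool.Agent.TH464.PW.Quad

/-!
# The numbers `x ^ 2 + x + A` with three prime factors and the windows around them

The `x` for which `x ^ 2 + x + A`, `A` odd, has at most three prime factors see the other values without small prime
factors as a Poisson process, up to constant factors, in all intervals.
-/

set_option autoImplicit false

namespace Pool.Agent.Results.MP_8be758_nt.P3InWindows

open Finset Filter Pool.Agent.U832.RG Pool.Agent.U832.RH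

/-- The `x` for which `x ^ 2 + x + A` has no prime factor `≤ y`. -/
def Rough (A y : ℕ) : Set ℕ := {x | ∀ p : ℕ, p.Prime → p ≤ y → ¬ p ∣ x ^ 2 + x + A}

/-- The `x` for which `x ^ 2 + x + A` has at most `R` prime factors, counted with multiplicity, and all of them are
`≥ z`. -/
def AlmostPrime (A R : ℕ) (z : ℝ) : Set ℕ :=
  {x | (x ^ 2 + x + A).primeFactorsList.length ≤ R ∧ ∀ p : ℕ, p.Prime → p ∣ x ^ 2 + x + A → z ≤ p}

/-- The `x` for which `x ^ 2 + x + A` has no prime factor `< z`. -/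
def Free (A : ℕ) (z : ℝ) : Set ℕ := {x | ∀ p : ℕ, p.Prime → (p : ℝ) < z → ¬ p ∣ x ^ 2 + x + A}

/-- The number of the `x` modulo `p` for which `p` divides `x ^ 2 + x + A`. -/
def roots (A p : ℕ) : ℕ := ((range p).filter (fun x : ℕ => p ∣ x ^ 2 + x + A)).card

/-- The product of `1 - roots A p / p` over the primes `p ≤ y`. -/
noncomputable def V (A y : ℕ) : ℝ := ∏ p ∈ (Icc 1 y).filter Nat.Prime, (1 - (roots A p : ℝ) / p)

section aux

open Pool.Agent.H373R2.T7 Pool.Agent.W123.RP Pool.Agent.TH464.PW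
open Pool.Agent.TH464.PO (Sf)
open Pool.Agent.W123.RU.Poly (Q)

/-- the polynomial -/
noncomputable def F (A : ℕ) : Polynomial ℤ := QG 1 1 A

lemma F_eval (A x : ℕ) : (F A).eval (x : ℤ) = ((x ^ 2 + x + A : ℕ) : ℤ) := by
  unfold F
  rw [QG_eval]
  push_cast
  ring

lemma rough_iff (A y n : ℕ) : n ∈ Rough A y ↔ Sf (Q (sg (F A))) y n := by
  unfold Sf Rough
  simp only [sg_Q, F_eval A _, mem_pz, Set.mem_ofPred_eq, Int.natCast_dvd_natCast]
  constructor
  · exact fun h p hp => h p hp.2 hp.1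
  · exact fun h p hp hpy => h p ⟨hpy, hp⟩

lemma V_eq (A y : ℕ) : Vq (Q (sg (F A))) y = V A y := by
  classical
  have hpz : pz y = (Icc 1 y).filter Nat.Prime := by
    ext p
    rw [mem_pz, mem_filter, mem_Icc]
    constructor
    · exact fun h => ⟨⟨h.2.one_lt.le, h.1⟩, h.2⟩
    · exact fun h => ⟨h.1.2, h.2⟩
  unfold Vq V
  rw [hpz]
  apply Finset.prod_congr rfl
  intro p _
  congr 3
  unfold roots nuB
  congr 1
  ext m
  rw [mem_filter, mem_filter, sg_Q, F_eval A m, Int.natCast_dvd_natCast]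

lemma hyp (A : ℕ) (hA : Odd A) :
    (∀ p : ℕ, p.Prime → ¬ ((p : ℤ) ∣ 1 ∧ (p : ℤ) ∣ 1 ∧ (p : ℤ) ∣ (A : ℤ))) ∧
    ¬ (Even ((1 : ℤ) + 1) ∧ Even (A : ℤ)) ∧ ¬ IsSquare ((1 : ℤ) ^ 2 - 4 * 1 * (A : ℤ)) := by
  refine ⟨fun p hp h1 => ?_, fun h1 => ?_, fun h1 => ?_⟩
  · have h4 : p ∣ 1 := by exact_mod_cast h1.1
    exact hp.one_lt.ne' (Nat.dvd_one.1 h4)
  · have h2 : Even A := by exact_mod_cast h1.2
    exact (Nat.not_even_iff_odd.2 hA) h2
  · obtain ⟨r, hr⟩ := h1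
    have h5 : 1 ≤ A := hA.pos
    have h4 : (1 : ℤ) ≤ A := by exact_mod_cast h5
    nlinarith [mul_self_nonneg r]

end aux

/-- Let `A` be odd, `0 < θ ≤ 1`, and let `R` be an integer with `9 / 8 + 25 / (12 θ) < R + 1` (for
instance `R = 3`, `3 / 4 ≤ θ ≤ 1`). There are `c, C > 0` such that for all `J`, `L`, `x₀`, all `ε > 0`, all large `r`
and all large `X`, with `y = ⌊X ^ (1 / r)⌋`: for ALL intervals `(Z, Z + Y]` with `X ^ θ ≤ Y`, `Z + Y ≤ X`, all disjoint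
windows `(d j, e j] ⊆ (0, T]`, `j < J`, `T V ≤ x₀`, all `s ≤ T` outside of them and all `l j ≤ L`, let `Π` be the
product of the probabilities that a Poisson variable of mean `(e j - d j) V` has the value `l j`. Then
(1) the number of the `n` in `(Z, Z + Y]` for which `x ^ 2 + x + A`, `x = n + s`, has at most `R` prime factors, all of
them `≥ X ^ (θ / 5)`, and for which exactly `l j` of the `m` in `(n + d j, n + e j]` have `m ^ 2 + m + A` free of prime
factors `≤ y`, for all `j`, is at least `(c Π - ε) Y / log X`;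
(2) the number of the `n` with the same windows for which `x ^ 2 + x + A`, `x = n + s`, has no prime factor
`< X ^ (θ / 4)` is at most `(C Π + ε) Y / log X`. -/
theorem result (A : ℕ) (hA : Odd A) (θ : ℝ) (hθ : 0 < θ) (hθ1 : θ ≤ 1) (R : ℕ)
    (hR : 9 / 8 + 25 / (12 * θ) < R + 1) :
    ∃ c C : ℝ, 0 < c ∧ 0 < C ∧ ∀ (J L : ℕ) (x₀ ε : ℝ), 0 < ε → ∃ r₀ : ℕ, ∀ r : ℕ, r₀ ≤ r → ∀ᶠ X : ℕ in atTop,
      ∀ y : ℕ, y = ⌊(X : ℝ) ^ (1 / (r : ℝ))⌋₊ →
      ∀ Z Y T : ℕ, Z + Y ≤ X → (X : ℝ) ^ θ ≤ Y → T * V A y ≤ x₀ →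
      ∀ (s : ℕ) (d e l : Fin J → ℕ), Windows T s d e → (∀ j, l j ≤ L) →
      (c * ∏ j, poisson (l j) ((e j - d j : ℕ) * V A y) - ε) * (Y / Real.log X) ≤
        seen (AlmostPrime A R ((X : ℝ) ^ (θ / 5))) (Rough A y) s d e l Z Y ∧
      (seen (Free A ((X : ℝ) ^ (θ / 4))) (Rough A y) s d e l Z Y : ℝ) ≤
        (C * ∏ j, poisson (l j) ((e j - d j : ℕ) * V A y) + ε) * (Y / Real.log X) := by
  obtain ⟨g1, g2, g3⟩ := hyp A hA
  obtain ⟨w, hw1, hw2, c, C, hc, hC, H⟩ := quadG_law 1 1 (A : ℤ) (by norm_num) g3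
    (Pool.Agent.TH464.PW.quad_irr _ _ _ (by norm_num) g1 g3) (fun p hp => by
      obtain ⟨m, hm⟩ := Pool.Agent.TH464.PW.quad_adm 1 1 (A : ℤ) g1 g2 p hp
      rw [Pool.Agent.TH464.PW.quad_eval] at hm
      exact ⟨m, hm⟩) θ hθ hθ1 R hR
  refine ⟨c, C, hc, hC, ?_⟩
  intro J L x₀ ε hε
  obtain ⟨r₀, H'⟩ := H J L x₀ ε hε
  refine ⟨r₀, fun r hr => ?_⟩
  filter_upwards [H' r hr, eventually_ge_atTop 1] with X hX hX1
  intro y hy Z Y T hZ hY hT s d e l hwin hk
  have hX1r : (1 : ℝ) ≤ X := by exact_mod_cast hX1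
  have hVF : Pool.Agent.W123.RP.Vq (Pool.Agent.W123.RU.Poly.Q (sg (QG 1 1 (A : ℤ)))) y = V A y := V_eq A y
  have h := hX y hy Z Y T hZ hY (by rw [hVF]; exact hT) s d e l hwin hk
  rw [hVF] at h
  obtain ⟨h1, h2⟩ := h
  refine ⟨h1.trans ?_, le_trans ?_ h2⟩
  · have h3 := cntAP_le (F A) R ((X : ℝ) ^ w) y s d e l Z Y
      (AlmostPrime A R ((X : ℝ) ^ (θ / 5))) (Rough A y) (fun m => rough_iff A y m) (fun m hm1 hm2 => by
        rw [F_eval A m, Int.natAbs_natCast] at hm1 hm2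
        refine ⟨hm1, fun p hp hpd => ?_⟩
        refine le_trans ?_ (hm2 p hp hpd)
        exact Real.rpow_le_rpow_of_exponent_le hX1r hw1)
    exact_mod_cast h3
  · have h3 := le_cntR (F A) ((X : ℝ) ^ w) y s d e l Z Y
      (Free A ((X : ℝ) ^ (θ / 4))) (Rough A y) (fun m => rough_iff A y m) (fun m hm p hp hpw => by
        rw [F_eval A m, Int.natCast_dvd_natCast]
        exact hm p hp (hpw.trans_le (Real.rpow_le_rpow_of_exponent_le hX1r hw2)))
    exact_mod_cast h3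

end Pool.Agent.Results.MP_8be758_nt.P3InWindows
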