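import Pool.Agent.U455.ASZ

/-!
# Shapes in dense subsets of arbitrary sifted sets, and of the arguments `x` with `x² + x + A` free of small primes

Let `Z p` be, for every prime `p`, a set of at most `r` residue classes modulo `p`, not all of them. `Sifted Z η a X` is the
set of the `n ∈ (a, a + X]` outside the classes of `Z p` for all the primes `p ≤ X ^ η`, and `V Z X` is the product of
`1 - |Z p| / p` over `p ≤ X`. For `Z = roots A`, `A` odd, `r = 2`, the set `Sifted (roots A) η a X` consists of the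
`x ∈ (a, a + X]` for which `x² + x + A` has no prime factor `≤ X ^ η`.

All constants are UNIFORM in the classes `Z` (so in `A`) and in the position `a` of the interval:

* for some `η` the set `Sifted Z η a X` has at least `c X V Z X` elements;
* for every `k`, `η`, `δ` there are `h`, `M ≥ 1`, `B` and `κ > 0` such that for EVERY subset `Q` of `Sifted Z η a X` with at
  least `δ X V Z X` elements and for all `L` with `(log X)ᴮ ≤ L ≤ X`: EVERY vector `t ∈ (M ℤ)ᵏ` with `|t i| ≤ L` is a sum of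
  at most `h` shapes `d` (vectors of `k` distinct nonzero integers) with `|d i| ≤ L` for which at least `κ X (V Z X)ᵏ⁺¹` of
  the `x ∈ Q` have all `x + d i` in `Q` (the right order of magnitude).

Proof: the upper bound sieve for `k + 1` shifts with arbitrary classes, the mean value over short shifts of the collision
weights (`Pool.Agent.Y79.HS.gav`), convexity in cells of length `L` and the second moment method show that a positive
proportion of all the shapes is popular (`Pool.Agent.U455.ASZ.popZ`); a local form of Schnirelmann's theorem and the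
rotations of the shapes give all the vectors (`Pool.Agent.U455.ASZ.vecP`).
-/

set_option autoImplicit false

namespace Pool.Agent.Results.MP_8be758_nt.ShapesOfRoughArguments

open Filter Finset

/-- at most `r` classes, and not all of them, modulo every prime -/
def Admissible (r : ℕ) (Z : ℕ → Finset ℕ) : Prop :=
  ∀ p : ℕ, p.Prime → (Z p).card ≤ r ∧ (Z p).card < p ∧ ∀ c ∈ Z p, c < p

open Classical in
/-- the `n ∈ (a, a + X]` outside the classes of `Z p` for all primes `p ≤ X ^ η` -/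
noncomputable def Sifted (Z : ℕ → Finset ℕ) (η : ℝ) (a X : ℕ) : Finset ℕ :=
  (Ioc a (a + X)).filter (fun n => ∀ p : ℕ, p.Prime → (p : ℝ) ≤ (X : ℝ) ^ η → n % p ∉ Z p)

/-- the product of `1 - |Z p| / p` over the primes `p ≤ X` -/
noncomputable def V (Z : ℕ → Finset ℕ) (X : ℕ) : ℝ := ∏ p ∈ (Ioc 0 X).filter Nat.Prime, (1 - ((Z p).card : ℝ) / p)

/-- the roots of `x² + x + A` modulo `p` -/
def roots (A p : ℕ) : Finset ℕ := (range p).filter (fun c => p ∣ c ^ 2 + c + A)

open Classical in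
/-- the number of the `x ∈ Q` with all `x + d i` in `Q` -/
noncomputable def count {k : ℕ} (Q : Finset ℕ) (d : Fin k → ℤ) : ℕ :=
  (Q.filter (fun x : ℕ => ∀ i, ∃ y ∈ Q, (y : ℤ) = (x : ℤ) + d i)).card

lemma roots_adm {A : ℕ} (hA : Odd A) : Admissible 2 (roots A) := by
  classical
  intro p hp
  have hcard : (roots A p).card ≤ 2 := by
    by_contra hcon
    push Not at hcon
    obtain ⟨x, y, z, hx, hy, hz, hxy, hxz, hyz⟩ := Finset.two_lt_card_iff.1 hcon
    unfold roots at hx hy hz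
    rw [mem_filter, mem_range] at hx hy hz
    have hpp : Prime (p : ℤ) := Nat.prime_iff_prime_int.1 hp
    have key : ∀ u v : ℕ, u < p → v < p → p ∣ u ^ 2 + u + A → p ∣ v ^ 2 + v + A → u ≠ v →
        (p : ℤ) ∣ (u : ℤ) + v + 1 := by
      intro u v hu hv hu' hv' huv
      have h1 : (p : ℤ) ∣ ((u ^ 2 + u + A : ℕ) : ℤ) - ((v ^ 2 + v + A : ℕ) : ℤ) :=
        dvd_sub (Int.natCast_dvd_natCast.2 hu') (Int.natCast_dvd_natCast.2 hv')
      have h2 : ((u ^ 2 + u + A : ℕ) : ℤ) - ((v ^ 2 + v + A : ℕ) : ℤ) = ((u : ℤ) - v) * ((u : ℤ) + v + 1) := by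
        push_cast
        ring
      rw [h2] at h1
      rcases hpp.dvd_or_dvd h1 with h3 | h3
      · exfalso
        obtain ⟨w, hw⟩ := h3
        have h4 : w = 0 := by
          have h5 : |(p : ℤ) * w| < p := by
            rw [← hw, abs_lt]
            constructor <;> omega
          by_contra h6
          have h7 : 1 ≤ |w| := Int.one_le_abs h6
          rw [abs_mul, Nat.abs_cast] at h5
          nlinarith
        rw [h4, mul_zero] at hw
        omega
      · exact h3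
    have h1 := key x y hx.1 hy.1 hx.2 hy.2 hxy
    have h2 := key x z hx.1 hz.1 hx.2 hz.2 hxz
    have h3 : (p : ℤ) ∣ (y : ℤ) - z := by
      have h4 := dvd_sub h1 h2
      have h5 : (x : ℤ) + y + 1 - (x + z + 1) = y - z := by ring
      rwa [h5] at h4
    obtain ⟨w, hw⟩ := h3
    have h4 : w = 0 := by
      have h5 : |(p : ℤ) * w| < p := by
        rw [← hw, abs_lt]
        constructor <;> omega
      by_contra h6
      have h7 : 1 ≤ |w| := Int.one_le_abs h6
      rw [abs_mul, Nat.abs_cast] at h5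
      nlinarith
    rw [h4, mul_zero] at hw
    omega
  refine ⟨hcard, ?_, fun c hc => mem_range.1 (mem_filter.1 hc).1⟩
  by_cases hp2 : p = 2
  · subst hp2
    have h1 : roots A 2 = ∅ := by
      unfold roots
      rw [filter_eq_empty_iff]
      intro c _ hd
      obtain ⟨m, hm⟩ := hA
      have h2 : (c ^ 2 + c) % 2 = 0 := by
        have : c ^ 2 + c = c * (c + 1) := by ring
        rw [this]
        exact Nat.even_iff.1 (Nat.even_mul_succ_self c)
      omega
    rw [h1, card_empty]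
    norm_num
  · have h3 := hp.two_le
    omega

theorem result :
    (∀ A : ℕ, Odd A → Admissible 2 (roots A)) ∧
    (∀ (A : ℕ) (η : ℝ) (a X n : ℕ), n ∈ Sifted (roots A) η a X ↔
      (a < n ∧ n ≤ a + X) ∧ ∀ p : ℕ, p.Prime → (p : ℝ) ≤ (X : ℝ) ^ η → ¬ p ∣ n ^ 2 + n + A) ∧
    ∀ r : ℕ,
    (∃ η c : ℝ, 0 < η ∧ η ≤ 1 ∧ 0 < c ∧ ∃ X₀ : ℕ, ∀ X a : ℕ, X₀ ≤ X → ∀ Z : ℕ → Finset ℕ, Admissible r Z →
      c * (X * V Z X) ≤ ((Sifted Z η a X).card : ℝ)) ∧
    ∀ k : ℕ, 1 ≤ k → ∀ η δ : ℝ, 0 < η → η ≤ 1 → 0 < δ → ∃ h M B : ℕ, 1 ≤ M ∧ ∃ κ : ℝ, 0 < κ ∧ ∃ X₀ : ℕ,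
      ∀ X a : ℕ, X₀ ≤ X → ∀ Z : ℕ → Finset ℕ, Admissible r Z →
      ∀ Q : Finset ℕ, Q ⊆ Sifted Z η a X → δ * (X * V Z X) ≤ Q.card →
      ∀ L : ℕ, Real.log X ^ B ≤ L → L ≤ X → ∀ t : Fin k → ℤ, (∀ i, (M : ℤ) ∣ t i) → (∀ i, |t i| ≤ (L : ℤ)) →
        ∃ l : List (Fin k → ℤ), l.length ≤ h ∧ l.sum = t ∧ ∀ d ∈ l,
          (∀ i, d i ≠ 0) ∧ Function.Injective d ∧ (∀ i, |d i| ≤ (L : ℤ)) ∧
            κ * (X * V Z X ^ (k + 1)) ≤ (count Q d : ℝ) := by
  classical
  have hS : ∀ (Z : ℕ → Finset ℕ) (η : ℝ) (a X : ℕ), Sifted Z η a X = Pool.Agent.X58.IV.Sift Z η a X := by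
    intro Z η a X
    unfold Sifted Pool.Agent.X58.IV.Sift
    congr!
  have hV : ∀ (Z : ℕ → Finset ℕ) (X : ℕ), V Z X = Pool.Agent.Y843.HS.VV Z 0 X := by
    intro Z X
    unfold V Pool.Agent.Y843.HS.VV Pool.Agent.Y843.HS.Pr
    rfl
  refine ⟨fun A hA => roots_adm hA, fun A η a X n => ?_, fun r => ⟨?_, ?_⟩⟩
  · unfold Sifted
    rw [mem_filter, mem_Ioc]
    have h1 : ∀ p : ℕ, p.Prime → (n % p ∉ roots A p ↔ ¬ p ∣ n ^ 2 + n + A) := by
      intro p hp
      rw [not_iff_not]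
      unfold roots
      rw [mem_filter, mem_range]
      have h2 : (n % p) ^ 2 + n % p + A ≡ n ^ 2 + n + A [MOD p] :=
        (((Nat.mod_modEq n p).pow 2).add (Nat.mod_modEq n p)).add_right A
      have h3 : p ∣ (n % p) ^ 2 + n % p + A ↔ p ∣ n ^ 2 + n + A := h2.dvd_iff (dvd_refl p)
      rw [h3]
      exact ⟨fun h => h.2, fun h => ⟨Nat.mod_lt _ hp.pos, h⟩⟩
    constructor
    · rintro ⟨h2, h3⟩
      exact ⟨h2, fun p hp hpX => (h1 p hp).1 (h3 p hp hpX)⟩
    · rintro ⟨h2, h3⟩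
      exact ⟨h2, fun p hp hpX => (h1 p hp).2 (h3 p hp hpX)⟩
  · obtain ⟨κ, c, hκ, hκ1, hc, X₀, hlow⟩ := Pool.Agent.X58.IV.lowZ r
    refine ⟨κ, c, hκ, hκ1, hc, max X₀ 1, fun X a hX Z hZ => ?_⟩
    rw [hS, hV]
    refine le_trans ?_ (hlow X a ((le_max_left _ _).trans hX) Z hZ)
    have hX1 : (1 : ℝ) ≤ X := by exact_mod_cast (le_max_right _ _).trans hX
    rw [mul_assoc]
    apply mul_le_mul_of_nonneg_left _ hc.le
    apply mul_le_mul_of_nonneg_left _ (by linarith)
    apply Pool.Agent.X58.IV.VV_anti hZ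
    have h3 : ((⌊(X : ℝ) ^ κ⌋₊ : ℕ) : ℝ) ≤ X := by
      refine (Nat.floor_le (by positivity)).trans ?_
      calc (X : ℝ) ^ κ ≤ (X : ℝ) ^ (1 : ℝ) := Real.rpow_le_rpow_of_exponent_le hX1 hκ1
        _ = X := Real.rpow_one _
    exact_mod_cast h3
  · intro k hk η δ hη hη1 hδ
    obtain ⟨h, M, B, hM, κ, hκ, X₀, hmain⟩ := Pool.Agent.U455.ASZ.main k hk r η δ hη hη1 hδ
    refine ⟨h, M, B, hM, κ, hκ, X₀, fun X a hX Z hZ Q hQ hQc L hLB hLX t hMt htL => ?_⟩
    rw [hS] at hQ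
    rw [hV] at hQc
    obtain ⟨l, h1, h2, h3⟩ := hmain X a hX Z hZ Q hQ hQc L hLB hLX t hMt htL
    refine ⟨l, h1, h2, fun d hd => ?_⟩
    obtain ⟨g1, g2, g3, g4⟩ := h3 d hd
    refine ⟨g1, g2, g3, ?_⟩
    have e : (Pool.Agent.U455.VEC.occ Q d).card = count Q d := by
      unfold Pool.Agent.U455.VEC.occ count
      rfl
    rw [e] at g4
    rw [hV]
    exact g4

end Pool.Agent.Results.MP_8be758_nt.ShapesOfRoughArguments
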